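import Pool.Graph.R_pool_sql_team_seeded_c8625f6e.K4H13.CV.LA2

/-!
# The Shimura map on average: few independent lattice vectors with small coordinates
-/

set_option autoImplicit false

namespace Pool.Agent.H52.SH

open Pool.Agent.K4H13.CV

/-- a permutation maps many elements of a large set of rows to a large set of columns -/
lemma perm_count {ι : Type*} [Fintype ι] [DecidableEq ι] (σ : Equiv.Perm ι) (R S : Finset ι) :
    R.card + S.card ≤ Fintype.card ι + (R.filter fun i => σ i ∈ S).card := by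
  classical
  have h1 : (R.filter fun i => σ i ∉ S).card ≤ (Finset.univ \ S).card := by
    refine Finset.card_le_card_of_injOn σ (fun i hi => ?_) (fun i _ j _ h => σ.injective h)
    rw [Finset.mem_coe, Finset.mem_filter] at hi
    rw [Finset.mem_coe, Finset.mem_sdiff]
    exact ⟨Finset.mem_univ _, hi.2⟩
  have h2 := Finset.card_filter_add_card_filter_not (s := R) (fun i => σ i ∈ S)
  have h3 : (Finset.univ \ S).card = Fintype.card ι - S.card := by
    rw [Finset.card_sdiff_of_subset (Finset.subset_univ S), Finset.card_univ]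
  have h4 : S.card ≤ Fintype.card ι := Finset.card_le_univ S
  omega

/-- the determinant of a matrix with a block of small entries -/
lemma det_small {ι : Type*} [Fintype ι] [DecidableEq ι] (A : Matrix ι ι ℝ) (H δ : ℝ) (hH : 1 ≤ H)
    (hδ0 : 0 ≤ δ) (hδ1 : δ ≤ 1) (R S : Finset ι) (hA : ∀ i j, |A i j| ≤ H)
    (hs : ∀ i ∈ R, ∀ j ∈ S, |A i j| ≤ δ) (m : ℕ) (hm : Fintype.card ι + m ≤ R.card + S.card) :
    |A.det| ≤ ((Fintype.card ι).factorial : ℝ) * (H ^ Fintype.card ι * δ ^ m) := by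
  classical
  have hH0 : 0 ≤ H := le_trans zero_le_one hH
  rw [Matrix.det_apply]
  refine (Finset.abs_sum_le_sum_abs _ _).trans ?_
  have key : ∀ σ : Equiv.Perm ι, |Equiv.Perm.sign σ • ∏ i, A (σ i) i| ≤
      H ^ Fintype.card ι * δ ^ m := by
    intro σ
    have e1 : |Equiv.Perm.sign σ • ∏ i, A (σ i) i| = ∏ i, |A i (σ.symm i)| := by
      rw [Units.smul_def, zsmul_eq_mul, abs_mul, Finset.abs_prod]
      have h2 : |(((Equiv.Perm.sign σ : ℤˣ) : ℤ) : ℝ)| = 1 := by
        rcases Int.units_eq_one_or (Equiv.Perm.sign σ) with h | h <;> rw [h] <;> simp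
      rw [h2, one_mul, ← Equiv.prod_comp σ (fun i => |A i (σ.symm i)|)]
      refine Finset.prod_congr rfl fun i _ => ?_
      rw [Equiv.symm_apply_apply]
    rw [e1]
    set T := R.filter fun i => σ.symm i ∈ S with hT
    have hc : R.card + S.card ≤ Fintype.card ι + T.card := by
      rw [hT]
      exact perm_count σ.symm R S
    have h1 : ∏ i, |A i (σ.symm i)| = (∏ i ∈ T, |A i (σ.symm i)|) *
        ∏ i ∈ Finset.univ \ T, |A i (σ.symm i)| := by
      rw [mul_comm, Finset.prod_sdiff (Finset.subset_univ T)]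
    rw [h1]
    have h2 : ∏ i ∈ T, |A i (σ.symm i)| ≤ δ ^ m := by
      calc ∏ i ∈ T, |A i (σ.symm i)| ≤ ∏ _i ∈ T, δ := by
            refine Finset.prod_le_prod (fun i _ => abs_nonneg _) fun i hi => ?_
            rw [hT, Finset.mem_filter] at hi
            exact hs i hi.1 _ hi.2
        _ = δ ^ T.card := Finset.prod_const _
        _ ≤ δ ^ m := pow_le_pow_of_le_one hδ0 hδ1 (by omega)
    have h3 : ∏ i ∈ Finset.univ \ T, |A i (σ.symm i)| ≤ H ^ Fintype.card ι := by
      calc ∏ i ∈ Finset.univ \ T, |A i (σ.symm i)| ≤ ∏ _i ∈ Finset.univ \ T, H :=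
            Finset.prod_le_prod (fun i _ => abs_nonneg _) fun i _ => hA _ _
        _ = H ^ (Finset.univ \ T).card := Finset.prod_const _
        _ ≤ H ^ Fintype.card ι := by
            refine pow_le_pow_right₀ hH ?_
            exact Finset.card_le_univ _
    rw [mul_comm (H ^ _)]
    exact mul_le_mul h2 h3 (Finset.prod_nonneg fun i _ => abs_nonneg _) (by positivity)
  calc ∑ σ : Equiv.Perm ι, |Equiv.Perm.sign σ • ∏ i, A (σ i) i| ≤
        ∑ _σ : Equiv.Perm ι, H ^ Fintype.card ι * δ ^ m := Finset.sum_le_sum fun σ _ => key σ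
    _ = _ := by
        rw [Finset.sum_const, Finset.card_univ, Fintype.card_perm, nsmul_eq_mul]

/-- **few independent vectors with small coordinates** -/
theorem rank_ineq {β : Type*} [Fintype β] [DecidableEq β] (Λ : AddSubgroup (β → ℂ)) (κ : ℝ)
    (hκ : ∀ v : β ⊕ β → β → ℂ, (∀ i, v i ∈ Λ) → (RM v).det ≠ 0 → κ ≤ |(RM v).det|)
    {ι : Type*} [Finite ι] (s : ι → β → ℂ) (hs : ∀ i, s i ∈ Λ) (H : ℝ) (hH : 1 ≤ H)
    (hsH : ∀ i f, ‖s i f‖ ≤ H) (hspan : Submodule.span ℝ (Set.range s) = ⊤)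
    (X : Set (β → ℂ)) (hX : ∀ v ∈ X, v ∈ Λ) (hXH : ∀ v ∈ X, ∀ f, ‖v f‖ ≤ H)
    (δ : ℝ) (hδ0 : 0 ≤ δ) (hδ1 : δ ≤ 1) (S : Finset (β ⊕ β))
    (hXS : ∀ v ∈ X, ∀ j ∈ S, |Sum.elim (fun f => (v f).re) (fun f => (v f).im) j| ≤ δ)
    (m : ℕ) (hm : 2 * Fintype.card β + m ≤ Module.finrank ℝ (Submodule.span ℝ X) + S.card) :
    κ ≤ ((2 * Fintype.card β).factorial : ℝ) * (H ^ (2 * Fintype.card β) * δ ^ m) := by
  classical
  obtain ⟨b0, hb0X, hb0span, hb0li⟩ := exists_linearIndependent ℝ X
  have hb0li' : LinearIndepOn ℝ id b0 := hb0li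
  obtain ⟨b, hb2, hb1, hb3, hb4⟩ := exists_linearIndepOn_id_extension hb0li'
    (Set.subset_union_left : b0 ⊆ b0 ∪ Set.range s)
  have hbtop : Submodule.span ℝ b = ⊤ := by
    rw [eq_top_iff, ← hspan]
    exact Submodule.span_le.2 ((Set.subset_union_right).trans hb3)
  have hbli : LinearIndependent ℝ (fun x : b => (x : β → ℂ)) := hb4
  have hbfin : b.Finite := hbli.setFinite
  letI : Fintype b := hbfin.fintype
  have hcard : Fintype.card b = Fintype.card (β ⊕ β) := by
    have h1 := linearIndependent_iff_card_eq_finrank_span.1 hbli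
    rw [Set.finrank, Subtype.range_coe, hbtop, finrank_top, finrank_eq] at h1
    rw [Fintype.card_sum, h1]
    ring
  let e : b ≃ β ⊕ β := Fintype.equivOfCardEq hcard
  let v : β ⊕ β → β → ℂ := fun i => ((e.symm i : b) : β → ℂ)
  have hvli : LinearIndependent ℝ v := hbli.comp _ e.symm.injective
  have hmem : ∀ x ∈ b, x ∈ X ∨ ∃ i, s i = x := by
    intro x hx
    rcases hb2 hx with h | h
    · exact Or.inl (hb0X h)
    · exact Or.inr h
  have hvΛ : ∀ i, v i ∈ Λ := by
    intro i
    rcases hmem _ (e.symm i).2 with h | ⟨j, hj⟩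
    · exact hX _ h
    · change ((e.symm i : b) : β → ℂ) ∈ Λ
      rw [← hj]
      exact hs j
  have hvH : ∀ i f, ‖v i f‖ ≤ H := by
    intro i f
    rcases hmem _ (e.symm i).2 with h | ⟨j, hj⟩
    · exact hXH _ h f
    · change ‖((e.symm i : b) : β → ℂ) f‖ ≤ H
      rw [← hj]
      exact hsH j f
  have hdet : (RM v).det ≠ 0 := by
    have := det_of_linInd v (Equiv.refl _) hvli
    simpa using this
  refine (hκ v hvΛ hdet).trans ?_
  set R : Finset (β ⊕ β) := Finset.univ.filter fun i => v i ∈ b0 with hR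
  have hRcard : Module.finrank ℝ (Submodule.span ℝ X) = R.card := by
    have hb0fin : b0.Finite := hbfin.subset hb1
    haveI : Fintype b0 := hb0fin.fintype
    have h1 := linearIndependent_iff_card_eq_finrank_span.1 hb0li
    rw [Set.finrank, Subtype.range_coe, hb0span] at h1
    rw [← h1, hR, ← Fintype.card_subtype]
    refine Fintype.card_congr
      { toFun := fun x => ⟨e ⟨x.1, hb1 x.2⟩, ?_⟩
        invFun := fun i => ⟨v i.1, i.2⟩
        left_inv := fun x => ?_
        right_inv := fun i => ?_ }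
    · change ((e.symm (e ⟨x.1, hb1 x.2⟩) : b) : β → ℂ) ∈ b0
      rw [Equiv.symm_apply_apply]
      exact x.2
    · apply Subtype.ext
      change ((e.symm (e ⟨x.1, hb1 x.2⟩) : b) : β → ℂ) = x.1
      rw [Equiv.symm_apply_apply]
    · apply Subtype.ext
      change e ⟨v i.1, _⟩ = i.1
      have : (⟨v i.1, hb1 i.2⟩ : b) = e.symm i.1 := Subtype.ext rfl
      rw [this, Equiv.apply_symm_apply]
  have hc2 : Fintype.card (β ⊕ β) = 2 * Fintype.card β := by
    rw [Fintype.card_sum]
    ring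
  have h5 := det_small (RM v) H δ hH hδ0 hδ1 R S ?_ ?_ m ?_
  · rw [hc2] at h5
    exact h5
  · rintro i (f | f)
    · exact (Complex.abs_re_le_norm _).trans (hvH i f)
    · exact (Complex.abs_im_le_norm _).trans (hvH i f)
  · intro i hi j hj
    rw [hR, Finset.mem_filter] at hi
    exact hXS (v i) (hb0X hi.2) j hj
  · rw [hc2, ← hRcard]
    exact hm

end Pool.Agent.H52.SH
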