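import Pool.Agent.H52.SH.Sym
import Pool.Agent.H52.SH.Rank
import Pool.Graph.R_pool_sql_team_seeded_c8625f6e.K4H52.TW.Prod
import Pool.Graph.R_pool_sql_team_seeded_c8625f6e.K4H13.CV.Hyp

/-!
# The Shimura map on average: the products over the newforms
-/

set_option autoImplicit false

open Complex Filter Topology Set UpperHalfPlane MatrixGroups CongruenceSubgroup

namespace Pool.Agent.H52.SH

open Pool.Agent.K4H13.CV
open Pool.Agent.TH940 (prim prim_deriv Fr prim_fricke Pers prim_near prim_line exp_norm)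
open Pool.Agent.Y18.BSD
open W388.LV (SF bf pet IsNewBasis)

variable {N : ℕ} [NeZero N]

/-- combinations of the Hecke translates of four vectors of periods -/
lemma comb_mem (hN : 1 < N) {B : Finset (Cf2 N)} (hB : ∀ f ∈ B, ∃ ε : ℝ, W388.IsNewf N 2 f ε)
    (γ₁ γ₂ γ₃ γ₄ : Gamma0 N) (a b c : ℤ) (n : ℕ) (hn : n.Coprime N) :
    (fun f : B => co f.1 n * (per f.1 γ₁ + (a : ℂ) * per f.1 γ₂ + (b : ℂ) * per f.1 γ₃ +
      (c : ℂ) * per f.1 γ₄)) ∈ LL B := by
  have h1 := hecke_mem hN hB γ₁ n hn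
  have h2 := (LL B).zsmul_mem (hecke_mem hN hB γ₂ n hn) a
  have h3 := (LL B).zsmul_mem (hecke_mem hN hB γ₃ n hn) b
  have h4 := (LL B).zsmul_mem (hecke_mem hN hB γ₄ n hn) c
  refine (congrArg (· ∈ LL B) ?_).mp
    ((LL B).add_mem ((LL B).add_mem ((LL B).add_mem h1 h2) h3) h4)
  funext f
  simp only [Pi.add_apply, Pi.smul_apply]
  simp only [zsmul_eq_mul]
  ring

open Classical in
/-- the product over the newforms of one sign -/
theorem prod_p (hN : N.Prime) (h2 : N ≠ 2) {B : Finset (Cf2 N)} (hB : IsNewBasis N 2 B)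
    (γ : Gamma0 N) (s k : ℤ) (hs : s = 1 ∨ s = -1) (c : ℂ) (hc : c = 1 ∨ c = Complex.I)
    (hk : c ^ 2 = (k : ℂ)) (part : ℂ → ℝ)
    (hpart : ∀ x : ℂ, x + (k : ℂ) * (starRingEnd ℂ) x = 2 * c * (part x : ℂ))
    (p : B → Prop) (hp : ∀ f : B, p f → W388.IsNewf N 2 f.1 (s : ℝ))
    (hp' : ∀ f : B, ¬ p f → W388.IsNewf N 2 f.1 (-(s : ℝ))) :
    1 / (N : ℝ) ^ (330 * B.card) ≤
      ∏ f ∈ (Finset.univ : Finset B).filter (fun f => part (per f.1 γ) ≠ 0 ∧ p f),
        |4 * part (per f.1 γ)| := by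
  have hN1 : 1 < N := hN.one_lt
  have hBn : ∀ f ∈ B, ∃ ε : ℝ, W388.IsNewf N 2 f ε := fun f hf => hB.newf f hf
  obtain ⟨γ₂, h₂⟩ := fricke_per hN1 γ
  obtain ⟨γ₃, -, h₃⟩ := conj_per γ
  obtain ⟨γ₄, -, h₄⟩ := conj_per γ₂
  set I : B → ℝ := fun f => if p f then 4 * part (per f.1 γ) else 0 with hI
  have h1 := prodG hyp hN h2 hB I (s : ℝ) (fun f hf => ?_) c hc (fun n hn => ?_)
  · refine h1.trans (le_of_eq ?_)
    have e1 : (Finset.univ : Finset B).filter (fun f => I f ≠ 0) =
        (Finset.univ : Finset B).filter (fun f => part (per f.1 γ) ≠ 0 ∧ p f) := by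
      ext f
      rw [Finset.mem_filter, Finset.mem_filter]
      simp only [hI, Finset.mem_univ, true_and]
      split_ifs with h
      · simp [h]
      · simp [h]
    rw [e1]
    refine Finset.prod_congr rfl fun f hf => ?_
    rw [Finset.mem_filter] at hf
    simp only [hI]
    rw [if_pos hf.2.2]
  · apply hp
    by_contra h
    apply hf
    simp only [hI]
    rw [if_neg h]
  · have h5 := comb_mem hN1 hBn γ γ₂ γ₃ γ₄ (-s) k (-(s * k)) n hn
    refine (congrArg (· ∈ LL B) ?_).mp h5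
    funext f
    have hcc : c * (part (per f.1 γ) : ℂ) * 2 =
        per f.1 γ + (k : ℂ) * (starRingEnd ℂ) (per f.1 γ) := by
      rw [hpart]
      ring
    by_cases h : p f
    · have hf := hp f h
      rw [h₃ f.1 _ hf, h₄ f.1 _ hf, h₂ f.1 _ hf]
      have e1 : ((I f : ℝ) : ℂ) = 4 * (part (per f.1 γ) : ℂ) := by
        simp only [hI]
        rw [if_pos h]
        push_cast
        rfl
      rw [e1]
      have hss : (s : ℂ) * (s : ℂ) = 1 := by
        rcases hs with rfl | rfl <;> norm_num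
      simp only [map_mul, map_neg, Complex.conj_ofReal]
      push_cast
      have e2 : c * (co f.1 n * (4 * (part (per f.1 γ) : ℂ))) =
          co f.1 n * (2 * (c * (part (per f.1 γ) : ℂ) * 2)) := by ring
      rw [e2, hcc]
      linear_combination (co f.1 n * (per f.1 γ + (k : ℂ) * (starRingEnd ℂ) (per f.1 γ))) * hss
    · have hf := hp' f h
      rw [h₃ f.1 _ hf, h₄ f.1 _ hf, h₂ f.1 _ hf]
      have e1 : ((I f : ℝ) : ℂ) = 0 := by
        simp only [hI]
        rw [if_neg h]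
        norm_num
      rw [e1]
      have hss : (s : ℂ) * (s : ℂ) = 1 := by
        rcases hs with rfl | rfl <;> norm_num
      simp only [map_mul, map_neg, Complex.conj_ofReal]
      push_cast
      linear_combination -(co f.1 n * (per f.1 γ + (k : ℂ) * (starRingEnd ℂ) (per f.1 γ))) * hss

open Classical in
/-- **The product over all newforms.** -/
theorem prod_all (hN : N.Prime) (h2 : N ≠ 2) {B : Finset (Cf2 N)} (hB : IsNewBasis N 2 B)
    (γ : Gamma0 N) (k : ℤ) (c : ℂ) (hc : c = 1 ∨ c = Complex.I)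
    (hk : c ^ 2 = (k : ℂ)) (part : ℂ → ℝ)
    (hpart : ∀ x : ℂ, x + (k : ℂ) * (starRingEnd ℂ) x = 2 * c * (part x : ℂ)) :
    1 / (N : ℝ) ^ (662 * B.card) ≤
      ∏ f ∈ (Finset.univ : Finset B).filter (fun f => part (per f.1 γ) ≠ 0), |part (per f.1 γ)| := by
  have hN3 := three_le hN h2
  have hN0 : (0 : ℝ) < N := by linarith
  have hN1 : (1 : ℝ) ≤ N := by linarith
  set p : B → Prop := fun f => W388.IsNewf N 2 f.1 1 with hp
  have hneg : ∀ f : B, ¬ p f → W388.IsNewf N 2 f.1 (-1) := by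
    intro f h
    obtain ⟨ε, hε⟩ := hB.newf f.1 f.2
    rcases hε.sign with rfl | rfl
    · exact absurd hε h
    · exact hε
  have h1 := prod_p hN h2 hB γ 1 k (Or.inl rfl) c hc hk part hpart p
    (fun f h => by simpa using h) (fun f h => by simpa using hneg f h)
  have h2' := prod_p hN h2 hB γ (-1) k (Or.inr rfl) c hc hk part hpart (fun f => ¬ p f)
    (fun f h => by simpa using hneg f h) (fun f h => by simpa [hp] using h)
  set T := (Finset.univ : Finset B).filter (fun f => part (per f.1 γ) ≠ 0) with hT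
  have h3 : ∏ f ∈ T, |4 * part (per f.1 γ)| =
      (∏ f ∈ (Finset.univ : Finset B).filter (fun f => part (per f.1 γ) ≠ 0 ∧ p f),
        |4 * part (per f.1 γ)|) *
      ∏ f ∈ (Finset.univ : Finset B).filter (fun f => part (per f.1 γ) ≠ 0 ∧ ¬ p f),
        |4 * part (per f.1 γ)| := by
    rw [← Finset.prod_filter_mul_prod_filter_not T p, hT, Finset.filter_filter,
      Finset.filter_filter]
  have h4 : 1 / (N : ℝ) ^ (660 * B.card) ≤ ∏ f ∈ T, |4 * part (per f.1 γ)| := by
    rw [h3]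
    have e1 : 1 / (N : ℝ) ^ (660 * B.card) =
        1 / (N : ℝ) ^ (330 * B.card) * (1 / (N : ℝ) ^ (330 * B.card)) := by
      rw [one_div, one_div, ← mul_inv, ← pow_add]
      congr 2
      ring
    rw [e1]
    refine mul_le_mul h1 (h2'.trans (le_of_eq ?_)) (by positivity)
      (Finset.prod_nonneg fun f _ => abs_nonneg _)
    refine Finset.prod_congr ?_ fun _ _ => rfl
    ext f
    simp only [Finset.mem_filter]
  have h5 : ∏ f ∈ T, |4 * part (per f.1 γ)| ≤
      (N : ℝ) ^ (2 * B.card) * ∏ f ∈ T, |part (per f.1 γ)| := by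
    have e1 : ∏ f ∈ T, |4 * part (per f.1 γ)| = 4 ^ T.card * ∏ f ∈ T, |part (per f.1 γ)| := by
      rw [← Finset.prod_const, ← Finset.prod_mul_distrib]
      refine Finset.prod_congr rfl fun f _ => ?_
      rw [abs_mul]
      norm_num
    rw [e1]
    refine mul_le_mul_of_nonneg_right ?_ (Finset.prod_nonneg fun f _ => abs_nonneg _)
    have hTc : T.card ≤ B.card := by
      have := Finset.card_le_univ T
      rwa [Fintype.card_coe] at this
    calc (4 : ℝ) ^ T.card ≤ ((N : ℝ) ^ 2) ^ T.card := by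
          gcongr
          nlinarith
      _ = (N : ℝ) ^ (2 * T.card) := by rw [pow_mul]
      _ ≤ (N : ℝ) ^ (2 * B.card) := pow_le_pow_right₀ hN1 (by omega)
  have h6 := h4.trans h5
  rw [div_le_iff₀ (by positivity)] at h6 ⊢
  refine h6.trans (le_of_eq ?_)
  rw [show 662 * B.card = 2 * B.card + 660 * B.card by ring, pow_add]
  ring

lemma re_part (x : ℂ) : x + ((1 : ℤ) : ℂ) * (starRingEnd ℂ) x = 2 * 1 * ((x.re : ℝ) : ℂ) := by
  apply Complex.ext <;> simp <;> ring

lemma im_part (x : ℂ) :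
    x + ((-1 : ℤ) : ℂ) * (starRingEnd ℂ) x = 2 * Complex.I * ((x.im : ℝ) : ℂ) := by
  apply Complex.ext <;> simp <;> ring

open Classical in
/-- the real parts -/
theorem prod_re (hN : N.Prime) (h2 : N ≠ 2) {B : Finset (Cf2 N)} (hB : IsNewBasis N 2 B)
    (γ : Gamma0 N) : 1 / (N : ℝ) ^ (662 * B.card) ≤
      ∏ f ∈ (Finset.univ : Finset B).filter (fun f => (per f.1 γ).re ≠ 0), |(per f.1 γ).re| :=
  prod_all hN h2 hB γ 1 1 (Or.inl rfl) (by norm_num) Complex.re re_part

open Classical in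
/-- the imaginary parts -/
theorem prod_im (hN : N.Prime) (h2 : N ≠ 2) {B : Finset (Cf2 N)} (hB : IsNewBasis N 2 B)
    (γ : Gamma0 N) : 1 / (N : ℝ) ^ (662 * B.card) ≤
      ∏ f ∈ (Finset.univ : Finset B).filter (fun f => (per f.1 γ).im ≠ 0), |(per f.1 γ).im| :=
  prod_all hN h2 hB γ (-1) Complex.I (Or.inr rfl) (by norm_num) Complex.im im_part

end Pool.Agent.H52.SH
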