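import Pool.Agent.H52.SH.Parts

/-!
# The Shimura map on average: the determinants
-/

set_option autoImplicit false

open Complex Filter Topology Set UpperHalfPlane MatrixGroups CongruenceSubgroup

namespace Pool.Agent.H52.SH

open Pool.Agent.K4H13.CV
open Pool.Agent.Y18.BSD
open W388.LV (SF bf pet IsNewBasis)

/-- a nonsingular square matrix in a spanning family -/
lemma exists_sub {β ι : Type*} [Fintype β] [DecidableEq β] (s : ι → β → ℝ)
    (h : Submodule.span ℝ (Set.range s) = ⊤) :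
    ∃ b : β → ι, (Matrix.of fun i f => s (b i) f).det ≠ 0 := by
  classical
  obtain ⟨b0, hb0X, hb0span, hb0li⟩ := exists_linearIndependent ℝ (Set.range s)
  have hfin : b0.Finite := by
    have := hb0li.setFinite
    exact this
  let _ : Fintype b0 := hfin.fintype
  have hcard : Fintype.card b0 = Fintype.card β := by
    have h1 := linearIndependent_iff_card_eq_finrank_span.1 hb0li
    rw [Set.finrank, Subtype.range_coe, hb0span, h, finrank_top,
      Module.finrank_fintype_fun_eq_card] at h1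
    exact h1
  let e : b0 ≃ β := Fintype.equivOfCardEq hcard
  have h3 : ∀ x : b0, ∃ i, s i = x := fun x => hb0X x.2
  choose t ht using h3
  refine ⟨fun i => t (e.symm i), ?_⟩
  have h4 : LinearIndependent ℝ (fun i : β => ((e.symm i : b0) : β → ℝ)) :=
    hb0li.comp _ e.symm.injective
  have h5 : (Matrix.of fun i f => s (t (e.symm i)) f) =
      (Matrix.of fun (i : β) (f : β) => ((e.symm i : b0) : β → ℝ) f) := by
    ext i f
    simp only [Matrix.of_apply, ht]
  rw [h5]
  have h6 : LinearIndependent ℝ (Matrix.of fun (i : β) (f : β) => ((e.symm i : b0) : β → ℝ) f).row := h4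
  rw [Matrix.linearIndependent_rows_iff_isUnit, Matrix.isUnit_iff_isUnit_det, isUnit_iff_ne_zero] at h6
  exact h6

/-- the determinant of a block matrix of periods -/
lemma det_block {β : Type*} [Fintype β] [DecidableEq β] (A M : Matrix β β ℝ) :
    |(RM (Sum.elim (fun i => mulc β 1 (A i)) (fun i => mulc β Complex.I (M i)))).det| =
      4 ^ Fintype.card β * (|A.det| * |M.det|) := by
  have h1 : RM (Sum.elim (fun i => mulc β 1 (A i)) (fun i => mulc β Complex.I (M i))) =
      Matrix.fromBlocks ((2 : ℝ) • A) 0 0 ((2 : ℝ) • M) := by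
    ext i j
    rcases i with i | i <;> rcases j with j | j <;> simp [RM, mulc]
  rw [h1, Matrix.det_fromBlocks_zero₂₁, Matrix.det_smul, Matrix.det_smul, abs_mul, abs_mul, abs_mul,
    abs_of_pos (by positivity : (0 : ℝ) < 2 ^ Fintype.card β)]
  have e : (4 : ℝ) ^ Fintype.card β = 2 ^ Fintype.card β * 2 ^ Fintype.card β := by
    rw [← mul_pow]
    norm_num
  rw [e]
  ring

variable {N : ℕ} [NeZero N]

/-- the real or imaginary parts of short periods -/
lemma short_det (hN : N.Prime) (h2 : N ≠ 2) {B : Finset (Cf2 N)} (hB : IsNewBasis N 2 B)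
    (part : ℂ → ℝ) (L : ℂ →ₗ[ℝ] ℝ) (hL : ∀ x, L x = part x) (hsur : ∃ x, L x = 1)
    (hle : ∀ x, |part x| ≤ ‖x‖) : ∃ γ : B → Gamma0 N,
      (Matrix.of fun i f : B => part (per f.1 (γ i))).det ≠ 0 ∧
      |(Matrix.of fun i f : B => part (per f.1 (γ i))).det| ≤ (N : ℝ) ^ (7 * B.card) := by
  classical
  have hN3 := three_le hN h2
  have hN0 : (0 : ℝ) < N := by linarith
  have hN1 : (1 : ℝ) ≤ N := by linarith
  obtain ⟨d, hd1, hd2⟩ := gen N hN
  have hspan := span_short hyp hN h2 hB d hd2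
  let Lp : (B → ℂ) →ₗ[ℝ] (B → ℝ) := LinearMap.compLeft L B
  have hLs : Function.Surjective Lp := by
    obtain ⟨x0, hx0⟩ := hsur
    intro r
    refine ⟨fun f => (r f) • x0, ?_⟩
    funext f
    change L ((r f) • x0) = r f
    rw [map_smul, hx0, smul_eq_mul, mul_one]
  have h3 : Submodule.span ℝ (Set.range fun i => (fun f : B => part (per f.1 (d i)))) = ⊤ := by
    have e1 : (Set.range fun i => (fun f : B => part (per f.1 (d i)))) =
        Lp '' (Set.range fun i => pv B (d i)) := by
      rw [← Set.range_comp]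
      congr 1
      funext i f
      exact (hL _).symm
    rw [e1, Submodule.span_image, hspan, Submodule.map_top, LinearMap.range_eq_top]
    exact hLs
  obtain ⟨b, hb⟩ := exists_sub (fun i => (fun f : B => part (per f.1 (d i)))) h3
  refine ⟨fun i => d (b i), hb, ?_⟩
  have h10 : (10 : ℝ) ≤ (N : ℝ) ^ 3 := by
    calc (10 : ℝ) ≤ 3 ^ 3 := by norm_num
      _ ≤ (N : ℝ) ^ 3 := by gcongr
  have hent : ∀ i f : B, |part (per f.1 (d (b i)))| ≤ (N : ℝ) ^ 6 := by
    intro i f
    obtain ⟨ε, hε⟩ := hB.newf f.1 f.2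
    have e1 := per_bd f.1 (coef N hN f.1 ε hε) (d (b i)) ((N : ℝ) ^ 2) (one_le_pow₀ hN1)
      (by
        have := hd1 (b i)
        rw [← Int.cast_abs]
        exact_mod_cast this)
    refine (hle _).trans (e1.trans ?_)
    have : (0 : ℝ) ≤ (N : ℝ) ^ 4 := by positivity
    nlinarith [mul_nonneg this (by nlinarith : (0 : ℝ) ≤ (N : ℝ) ^ 2 - 8)]
  have h4 := Matrix.det_le (A := Matrix.of fun i f : B => part (per f.1 (d (b i))))
    (abv := (IsAbsoluteValue.toAbsoluteValue (abs : ℝ → ℝ))) (x := (N : ℝ) ^ 6) (fun i f => hent i f)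
  have h5 : |(Matrix.of fun i f : B => part (per f.1 (d (b i)))).det| ≤
      (Fintype.card B).factorial • ((N : ℝ) ^ 6) ^ Fintype.card B := h4
  rw [Fintype.card_coe, nsmul_eq_mul] at h5
  refine h5.trans ?_
  have hcard : (B.card : ℝ) ≤ N := by
    have h5 := card_le hyp hN h2 hB
    rw [(dimS hyp hN h2 hB).1] at h5
    have : B.card ≤ N := by omega
    exact_mod_cast this
  have h6 : ((B.card).factorial : ℝ) ≤ (N : ℝ) ^ B.card := by
    have e1 : ((B.card).factorial : ℝ) ≤ (B.card : ℝ) ^ B.card := by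
      exact_mod_cast Nat.factorial_le_pow B.card
    refine e1.trans ?_
    gcongr
  calc ((B.card).factorial : ℝ) * ((N : ℝ) ^ 6) ^ B.card ≤
        (N : ℝ) ^ B.card * ((N : ℝ) ^ 6) ^ B.card := by gcongr
    _ = (N : ℝ) ^ (7 * B.card) := by
        rw [← pow_mul, ← pow_add]
        congr 1
        ring

/-- the product of the two determinants -/
lemma two_dets (hN : N.Prime) (h2 : N ≠ 2) {B : Finset (Cf2 N)} (hB : IsNewBasis N 2 B)
    (hg : 1 ≤ B.card) (γ γ' : B → Gamma0 N)
    (h : (Matrix.of fun i f : B => (per f.1 (γ i)).re).det ≠ 0)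
    (h' : (Matrix.of fun i f : B => (per f.1 (γ' i)).im).det ≠ 0) :
    1 / (N : ℝ) ^ (296 * B.card) ≤ 4 ^ B.card *
      (|(Matrix.of fun i f : B => (per f.1 (γ i)).re).det| *
        |(Matrix.of fun i f : B => (per f.1 (γ' i)).im).det|) := by
  have hBn : ∀ f ∈ B, ∃ ε : ℝ, W388.IsNewf N 2 f ε := fun f hf => hB.newf f hf
  have h1 := det_block (Matrix.of fun i f : B => (per f.1 (γ i)).re)
    (Matrix.of fun i f : B => (per f.1 (γ' i)).im)
  rw [Fintype.card_coe] at h1
  rw [← h1]
  refine kappa hyp hN h2 hB hg _ (fun i => ?_) ?_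
  · rcases i with i | i
    · exact part_mem hBn (γ i) 1 1 Complex.re re_part
    · exact part_mem hBn (γ' i) (-1) Complex.I Complex.im im_part
  · intro h3
    rw [h3, abs_zero] at h1
    have h4 := mul_pos (by positivity : (0 : ℝ) < 4 ^ B.card) (mul_pos (abs_pos.2 h) (abs_pos.2 h'))
    linarith

/-- numerics -/
lemma det_num {n x y : ℝ} {g : ℕ} (hn : 3 ≤ n) (hy0 : 0 ≤ y) (hx0 : 0 ≤ x) (hy : y ≤ n ^ (7 * g))
    (h : 1 / n ^ (296 * g) ≤ 4 ^ g * (x * y)) : 1 / n ^ (305 * g) ≤ x := by
  have hn0 : 0 < n := by linarith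
  have h1 : (4 : ℝ) ^ g ≤ n ^ (2 * g) := by
    rw [pow_mul]
    gcongr
    nlinarith
  have h2 : 1 / n ^ (296 * g) ≤ n ^ (2 * g) * (x * n ^ (7 * g)) := by
    refine h.trans ?_
    gcongr
  rw [div_le_iff₀ (by positivity)] at h2 ⊢
  refine h2.trans (le_of_eq ?_)
  rw [show 305 * g = 2 * g + (7 * g + 296 * g) by ring, pow_add, pow_add]
  ring

/-- **The determinants of the real parts.** -/
theorem det_re (hN : N.Prime) (h2 : N ≠ 2) {B : Finset (Cf2 N)} (hB : IsNewBasis N 2 B)
    (γ : B → Gamma0 N) (h : (Matrix.of fun i f : B => (per f.1 (γ i)).re).det ≠ 0) :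
    1 / (N : ℝ) ^ (305 * B.card) ≤ |(Matrix.of fun i f : B => (per f.1 (γ i)).re).det| := by
  rcases Nat.eq_zero_or_pos B.card with h0 | hg
  · have he : IsEmpty B := by
      rw [Finset.card_eq_zero] at h0
      rw [h0]
      infer_instance
    rw [Matrix.det_isEmpty, h0]
    norm_num
  obtain ⟨γ', h3, h4⟩ := short_det hN h2 hB Complex.im Complex.imLm (fun x => rfl)
    ⟨Complex.I, by simp⟩ Complex.abs_im_le_norm
  exact det_num (three_le hN h2) (abs_nonneg _) (abs_nonneg _) h4 (two_dets hN h2 hB hg γ γ' h h3)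

/-- **The determinants of the imaginary parts.** -/
theorem det_im (hN : N.Prime) (h2 : N ≠ 2) {B : Finset (Cf2 N)} (hB : IsNewBasis N 2 B)
    (γ : B → Gamma0 N) (h : (Matrix.of fun i f : B => (per f.1 (γ i)).im).det ≠ 0) :
    1 / (N : ℝ) ^ (305 * B.card) ≤ |(Matrix.of fun i f : B => (per f.1 (γ i)).im).det| := by
  rcases Nat.eq_zero_or_pos B.card with h0 | hg
  · have he : IsEmpty B := by
      rw [Finset.card_eq_zero] at h0
      rw [h0]
      infer_instance
    rw [Matrix.det_isEmpty, h0]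
    norm_num
  obtain ⟨γ', h3, h4⟩ := short_det hN h2 hB Complex.re Complex.reLm (fun x => rfl)
    ⟨1, by simp⟩ Complex.abs_re_le_norm
  refine det_num (three_le hN h2) (abs_nonneg _) (abs_nonneg _) h4 ?_
  have := two_dets hN h2 hB hg γ' γ h3 h
  rwa [mul_comm |(Matrix.of fun i f : B => (per f.1 (γ' i)).re).det|] at this

end Pool.Agent.H52.SH
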