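import Pool.Agent.H52.SH.Core

/-!
# The Shimura map on average: ranks and determinants of the real and of the imaginary parts
-/

set_option autoImplicit false

open Complex Filter Topology Set UpperHalfPlane MatrixGroups CongruenceSubgroup

namespace Pool.Agent.H52.SH

open Pool.Agent.K4H13.CV
open Pool.Agent.Y18.BSD
open W388.LV (SF bf pet IsNewBasis)

variable {N : ℕ} [NeZero N]

/-- the vectors of twice the real or imaginary parts are vectors of periods -/
lemma part_mem {B : Finset (Cf2 N)} (hB : ∀ f ∈ B, ∃ ε : ℝ, W388.IsNewf N 2 f ε)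
    (γ : Gamma0 N) (k : ℤ) (c : ℂ) (part : ℂ → ℝ)
    (hpart : ∀ x : ℂ, x + (k : ℂ) * (starRingEnd ℂ) x = 2 * c * (part x : ℂ)) :
    (fun f : B => 2 * c * (part (per f.1 γ) : ℂ)) ∈ LL B := by
  obtain ⟨γ₃, -, h₃⟩ := conj_per γ
  refine (congrArg (· ∈ LL B) ?_).mp
    ((LL B).add_mem (pv_mem B γ) ((LL B).zsmul_mem (pv_mem B γ₃) k))
  funext f
  obtain ⟨ε, hε⟩ := hB f.1 f.2
  simp only [Pi.add_apply, Pi.smul_apply]
  simp only [zsmul_eq_mul]
  change per f.1 γ + (k : ℂ) * per f.1 γ₃ = _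
  rw [h₃ f.1 ε hε, hpart]

/-- the linear map of multiplication by `2 c` -/
def mulc (β : Type*) (c : ℂ) : (β → ℝ) →ₗ[ℝ] (β → ℂ) where
  toFun r := fun f => 2 * c * (r f : ℂ)
  map_add' r s := by
    funext f
    simp only [Pi.add_apply, Complex.ofReal_add]
    ring
  map_smul' a r := by
    funext f
    simp only [Pi.smul_apply, smul_eq_mul, Complex.ofReal_mul, RingHom.id_apply, Complex.real_smul]
    ring

lemma mulc_inj (β : Type*) {c : ℂ} (hc : c ≠ 0) : Function.Injective (mulc β c) := by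
  intro r s h
  funext f
  have h1 : 2 * c * (r f : ℂ) = 2 * c * (s f : ℂ) := congrFun h f
  have h2 : (2 * c) ≠ 0 := mul_ne_zero two_ne_zero hc
  exact_mod_cast mul_left_cancel₀ h2 h1

/-- the numerical conclusion -/
lemma rank_num {n K A : ℝ} {g m : ℕ} (hn : 3 ≤ n) (hg : (2 * g : ℝ) ≤ n) (hK : 0 ≤ K) (hm : m ≤ g)
    (h : 1 / n ^ (296 * g) ≤ ((2 * g).factorial : ℝ) *
      ((n ^ (K + 6)) ^ (2 * g) * (2 * n ^ (-A)) ^ m)) : A * m ≤ (311 + 2 * K) * g := by
  have hn0 : 0 < n := by linarith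
  have hn1 : 1 < n := by linarith
  have h1 : ((2 * g).factorial : ℝ) ≤ n ^ (2 * g) := by
    have e1 : ((2 * g).factorial : ℝ) ≤ ((2 * g : ℕ) : ℝ) ^ (2 * g) := by
      exact_mod_cast Nat.factorial_le_pow (2 * g)
    refine e1.trans ?_
    push_cast
    gcongr
  have h2 : (2 * n ^ (-A)) ^ m ≤ n ^ g * n ^ (-(A * m)) := by
    rw [mul_pow]
    have e1 : (2 : ℝ) ^ m ≤ n ^ g := by
      calc (2 : ℝ) ^ m ≤ n ^ m := by gcongr; linarith
        _ ≤ n ^ g := pow_le_pow_right₀ hn1.le hm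
    have e2 : (n ^ (-A)) ^ m = n ^ (-(A * m)) := by
      rw [← Real.rpow_natCast, ← Real.rpow_mul hn0.le]
      congr 1
      ring
    rw [e2]
    exact mul_le_mul_of_nonneg_right e1 (Real.rpow_nonneg hn0.le _)
  have h3 : (n ^ (K + 6)) ^ (2 * g) = n ^ ((K + 6) * (2 * g)) := by
    rw [← Real.rpow_natCast, ← Real.rpow_mul hn0.le]
    push_cast
    rfl
  have h4 : 1 / n ^ (296 * g) ≤ n ^ (2 * g) * (n ^ ((K + 6) * (2 * g)) *
      (n ^ g * n ^ (-(A * m)))) := by
    refine h.trans ?_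
    rw [h3]
    have e0 : 0 ≤ n ^ ((K + 6) * (2 * (g : ℝ))) := Real.rpow_nonneg hn0.le _
    have e1 : 0 ≤ (2 * n ^ (-A)) ^ m := by
      have := Real.rpow_nonneg hn0.le (-A)
      positivity
    exact mul_le_mul h1 (mul_le_mul_of_nonneg_left h2 e0) (mul_nonneg e0 e1) (by positivity)
  have h5 : 1 / n ^ (296 * g) = n ^ (-(296 * (g : ℝ))) := by
    rw [Real.rpow_neg hn0.le, one_div]
    congr 1
    rw [show (296 : ℝ) * (g : ℝ) = ((296 * g : ℕ) : ℝ) by push_cast; rfl, Real.rpow_natCast]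
  have h6 : n ^ (2 * g) * (n ^ ((K + 6) * (2 * g)) * (n ^ g * n ^ (-(A * m)))) =
      n ^ (2 * (g : ℝ) + ((K + 6) * (2 * g) + (g + -(A * m)))) := by
    rw [Real.rpow_add hn0, Real.rpow_add hn0, Real.rpow_add hn0, Real.rpow_natCast,
      show (2 : ℝ) * (g : ℝ) = ((2 * g : ℕ) : ℝ) by push_cast; rfl, Real.rpow_natCast]
  rw [h5, h6, Real.rpow_le_rpow_left_iff hn1] at h4
  linarith

/-- **Few independent elements with many small coordinates.** -/
theorem rank_part (hN : N.Prime) (h2 : N ≠ 2) {B : Finset (Cf2 N)} (hB : IsNewBasis N 2 B)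
    (k : ℤ) (c : ℂ) (hc : c = 1 ∨ c = Complex.I) (part : ℂ → ℝ)
    (hpart : ∀ x : ℂ, x + (k : ℂ) * (starRingEnd ℂ) x = 2 * c * (part x : ℂ))
    (K A : ℝ) (hK : 0 ≤ K) (hA : 0 < A) (X : Set (Gamma0 N)) (P : Finset B)
    (hXK : ∀ γ ∈ X, ∀ f : B, |part (per f.1 γ)| ≤ (N : ℝ) ^ K)
    (hXP : ∀ γ ∈ X, ∀ f ∈ P, |part (per f.1 γ)| ≤ (N : ℝ) ^ (-A)) :
    (Module.finrank ℝ (Submodule.span ℝ ((fun γ => fun f : B => part (per f.1 γ)) '' X)) : ℝ) +
      P.card ≤ B.card + (311 + 2 * K) / A * B.card := by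
  classical
  have hN3 := three_le hN h2
  have hN0 : (0 : ℝ) < N := by linarith
  have hN1 : (1 : ℝ) ≤ N := by linarith
  set W := Submodule.span ℝ ((fun γ => fun f : B => part (per f.1 γ)) '' X) with hW
  have hr : Module.finrank ℝ W ≤ B.card := by
    have := Submodule.finrank_le W
    rwa [Module.finrank_fintype_fun_eq_card, Fintype.card_coe] at this
  have hPc : P.card ≤ B.card := by
    have := Finset.card_le_univ P
    rwa [Fintype.card_coe] at this
  rcases Nat.lt_or_ge B.card (Module.finrank ℝ W + P.card) with hlt | hge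
  swap
  · have h1 : (0 : ℝ) ≤ (311 + 2 * K) / A * B.card := by positivity
    have h3 : ((Module.finrank ℝ W : ℕ) : ℝ) + (P.card : ℝ) ≤ B.card := by exact_mod_cast hge
    linarith
  rcases lt_or_ge A 1 with hA1 | hA1
  · have h1 : (B.card : ℝ) ≤ (311 + 2 * K) / A * B.card := by
      have : 1 ≤ (311 + 2 * K) / A := by
        rw [one_le_div hA]
        linarith
      have h0 : (0 : ℝ) ≤ B.card := Nat.cast_nonneg _
      nlinarith
    have h3 : ((Module.finrank ℝ W : ℕ) : ℝ) ≤ B.card := by exact_mod_cast hr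
    have h4 : ((P.card : ℕ) : ℝ) ≤ B.card := by exact_mod_cast hPc
    linarith
  have hg : 1 ≤ B.card := by
    by_contra h
    omega
  obtain ⟨m, hm⟩ : ∃ m, Module.finrank ℝ W + P.card = B.card + m := ⟨_, (Nat.add_sub_of_le hlt.le).symm⟩
  have hmg : m ≤ B.card := by omega
  have hc0 : c ≠ 0 := by rcases hc with rfl | rfl; exacts [one_ne_zero, Complex.I_ne_zero]
  have hcn : ‖c‖ = 1 := by rcases hc with rfl | rfl <;> simp
  have hBn : ∀ f ∈ B, ∃ ε : ℝ, W388.IsNewf N 2 f ε := fun f hf => hB.newf f hf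
  set δ : ℝ := 2 * (N : ℝ) ^ (-A) with hδ
  have hδ0 : 0 ≤ δ := by
    have := Real.rpow_nonneg hN0.le (-A)
    rw [hδ]
    linarith
  have hδ1 : δ ≤ 1 := by
    have h1 : (N : ℝ) ^ (-A) ≤ (N : ℝ) ^ (-1 : ℝ) :=
      Real.rpow_le_rpow_of_exponent_le hN1 (by linarith)
    rw [Real.rpow_neg_one] at h1
    have h3 : (N : ℝ)⁻¹ ≤ 2⁻¹ := by
      apply inv_anti₀ (by norm_num)
      linarith
    rw [hδ]
    linarith
  obtain ⟨S, hS1, hS2⟩ : ∃ S : Finset (B ⊕ B), S.card = P.card + B.card ∧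
      ∀ r : B → ℝ, (∀ f ∈ P, |r f| ≤ (N : ℝ) ^ (-A)) → ∀ j ∈ S,
        |Sum.elim (fun f => (mulc B c r f).re) (fun f => (mulc B c r f).im) j| ≤ δ := by
    rcases hc with rfl | rfl
    · refine ⟨P.disjSum Finset.univ, ?_, fun r hr j hj => ?_⟩
      · rw [Finset.card_disjSum, Finset.card_univ, Fintype.card_coe]
      · rcases j with f | f
        · rw [Finset.inl_mem_disjSum] at hj
          have e1 : (mulc B 1 r f).re = 2 * r f := by simp [mulc]
          rw [Sum.elim_inl, e1, abs_mul, hδ]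
          have := hr f hj
          norm_num
          linarith
        · have e1 : (mulc B 1 r f).im = 0 := by simp [mulc]
          rw [Sum.elim_inr, e1, abs_zero]
          exact hδ0
    · refine ⟨Finset.univ.disjSum P, ?_, fun r hr j hj => ?_⟩
      · rw [Finset.card_disjSum, Finset.card_univ, Fintype.card_coe, add_comm]
      · rcases j with f | f
        · have e1 : (mulc B Complex.I r f).re = 0 := by simp [mulc]
          rw [Sum.elim_inl, e1, abs_zero]
          exact hδ0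
        · rw [Finset.inr_mem_disjSum] at hj
          have e1 : (mulc B Complex.I r f).im = 2 * r f := by simp [mulc]
          rw [Sum.elim_inr, e1, abs_mul, hδ]
          have := hr f hj
          norm_num
          linarith
  obtain ⟨d, hd1, hd2⟩ := gen N hN
  set V : Set (B → ℂ) := mulc B c '' ((fun γ => fun f : B => part (per f.1 γ)) '' X) with hV
  have hVW : Module.finrank ℝ (Submodule.span ℝ V) = Module.finrank ℝ W := by
    rw [hV, Submodule.span_image]
    exact (Submodule.equivMapOfInjective (mulc B c) (mulc_inj B hc0) W).finrank_eq.symm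
  have h10 : (10 : ℝ) ≤ (N : ℝ) ^ 3 := by
    calc (10 : ℝ) ≤ 3 ^ 3 := by norm_num
      _ ≤ (N : ℝ) ^ 3 := by gcongr
  have hpow6 : (N : ℝ) ^ (6 : ℝ) = (N : ℝ) ^ 6 := by
    rw [show (6 : ℝ) = ((6 : ℕ) : ℝ) by norm_num, Real.rpow_natCast]
  have hH6 : (N : ℝ) ^ (6 : ℝ) ≤ (N : ℝ) ^ (K + 6) :=
    Real.rpow_le_rpow_of_exponent_le hN1 (by linarith)
  have hH1 : (1 : ℝ) ≤ (N : ℝ) ^ (K + 6) := by
    refine le_trans ?_ hH6
    rw [hpow6]
    exact one_le_pow₀ hN1
  have key := rank_ineq (LL B) (1 / (N : ℝ) ^ (296 * B.card))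
    (fun v hv hd => kappa hyp hN h2 hB hg v hv hd) (fun i => pv B (d i)) (fun i => pv_mem B _)
    ((N : ℝ) ^ (K + 6)) hH1 (fun i f => ?_) (span_short hyp hN h2 hB d hd2) V ?_ ?_ δ hδ0 hδ1 S ?_ m ?_
  · rw [Fintype.card_coe] at key
    have hcard : (2 * (B.card : ℝ)) ≤ N := by
      have h5 := card_le hyp hN h2 hB
      rw [(dimS hyp hN h2 hB).1] at h5
      have : 2 * B.card ≤ N := by omega
      exact_mod_cast this
    have h6 := rank_num hN3 hcard hK hmg key
    have h7 : (m : ℝ) ≤ (311 + 2 * K) / A * B.card := by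
      rw [div_mul_eq_mul_div, le_div_iff₀ hA]
      linarith
    have h8 : ((Module.finrank ℝ W : ℕ) : ℝ) + (P.card : ℝ) = B.card + m := by exact_mod_cast hm
    linarith
  · obtain ⟨ε, hε⟩ := hB.newf f.1 f.2
    have e1 := per_bd f.1 (coef N hN f.1 ε hε) (d i) ((N : ℝ) ^ 2) (one_le_pow₀ hN1)
      (by
        have := hd1 i
        rw [← Int.cast_abs]
        exact_mod_cast this)
    refine (show ‖pv B (d i) f‖ = ‖per f.1 (d i)‖ from rfl).le.trans (e1.trans (le_trans ?_ hH6))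
    rw [hpow6]
    have : (0 : ℝ) ≤ (N : ℝ) ^ 4 := by positivity
    nlinarith [mul_nonneg this (by nlinarith : (0 : ℝ) ≤ (N : ℝ) ^ 2 - 8)]
  · rintro v ⟨r, ⟨γ, -, rfl⟩, rfl⟩
    exact part_mem hBn γ k c part hpart
  · rintro v ⟨r, ⟨γ, hγ, rfl⟩, rfl⟩ f
    have e1 : ‖mulc B c (fun f : B => part (per f.1 γ)) f‖ = 2 * |part (per f.1 γ)| := by
      simp only [mulc, LinearMap.coe_mk, AddHom.coe_mk, norm_mul, hcn, Complex.norm_real,
        Real.norm_eq_abs, mul_one]
      norm_num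
    rw [e1]
    have e2 := hXK γ hγ f
    have e3 : 2 * (N : ℝ) ^ K ≤ (N : ℝ) ^ (K + 6) := by
      rw [Real.rpow_add hN0, hpow6, mul_comm]
      have e4 : (2 : ℝ) ≤ (N : ℝ) ^ 6 := by nlinarith [pow_pos hN0 3]
      exact mul_le_mul_of_nonneg_left e4 (Real.rpow_nonneg hN0.le _)
    linarith
  · rintro v ⟨r, ⟨γ, hγ, rfl⟩, rfl⟩ j hj
    exact hS2 _ (fun f hf => hXP γ hγ f hf) j hj
  · rw [hVW, hS1, Fintype.card_coe]
    omega

end Pool.Agent.H52.SH
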