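import Pool.Graph.R_pool_sql_team_seeded_c8625f6e.K4H52.TW.Twm

/-!
# The Shimura map on average: symmetries of the periods

* `per_bv`: the period of `γ` is a difference of boundary values;
* `hecke_mem`: the Hecke translates of the vector of the periods of `γ` are vectors of periods;
* `conj_per`: complex conjugation;
* `fricke_per`: the involution.
-/

set_option autoImplicit false

open Complex Filter Topology Set UpperHalfPlane MatrixGroups CongruenceSubgroup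

namespace Pool.Agent.H52.SH

open Pool.Agent.K4H13.CV
open Pool.Agent.TH940 (prim prim_deriv Fr prim_fricke Pers prim_near prim_line exp_norm)
open Pool.Agent.Y18.BSD

variable {N : ℕ} [NeZero N]

/-- the action of a matrix of determinant one -/
lemma act (γ : SL(2, ℤ)) (z : ℍ) : ((γ • z : ℍ) : ℂ) =
    (((γ 0 0 : ℤ) : ℂ) * z + ((γ 0 1 : ℤ) : ℂ)) / (((γ 1 0 : ℤ) : ℂ) * z + ((γ 1 1 : ℤ) : ℂ)) := by
  rw [ModularGroup.sl_moeb, coe_smul_of_det_pos (by simp) z, ModularGroup.denom_apply]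
  congr 1

lemma den_ne (γ : SL(2, ℤ)) (z : ℍ) : (((γ 1 0 : ℤ) : ℂ) * z + ((γ 1 1 : ℤ) : ℂ)) ≠ 0 := by
  have h := denom_ne_zero (γ : GL (Fin 2) ℝ) z
  rwa [ModularGroup.denom_apply] at h

lemma det_eq (γ : SL(2, ℤ)) : γ 0 0 * γ 1 1 - γ 0 1 * γ 1 0 = 1 := by
  have h1 := Matrix.SpecialLinearGroup.det_coe γ
  rw [Matrix.det_fin_two] at h1
  exact h1

/-- a period is determined by one point -/
lemma per_of (f : Cf2 N) (γ : Gamma0 N) (z w : ℍ) (hw : ((((γ : SL(2, ℤ)) • z : ℍ)) : ℂ) = (w : ℂ))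
    (x : ℂ) (h : prim f (w : ℂ) = prim f (z : ℂ) + x) : per f γ = x := by
  have h1 := per_spec f γ z
  rw [hw, h] at h1
  exact (add_left_cancel h1).symm

/-- complex conjugation of the periods -/
theorem conj_per (γ : Gamma0 N) : ∃ γ' : Gamma0 N,
    ((γ' : SL(2, ℤ)) 1 0 : ℤ) = -((γ : SL(2, ℤ)) 1 0 : ℤ) ∧
    ∀ (f : Cf2 N) (ε : ℝ), W388.IsNewf N 2 f ε → per f γ' = (starRingEnd ℂ) (per f γ) := by
  obtain ⟨g, hg⟩ := γ
  have hdet := det_eq g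
  let g' : SL(2, ℤ) := ⟨!![g 0 0, -g 0 1; -g 1 0, g 1 1], by
    rw [Matrix.det_fin_two_of]
    linarith⟩
  have hg' : g' ∈ Gamma0 N := by
    rw [Gamma0_mem] at hg ⊢
    simp [g', hg]
  refine ⟨⟨g', hg'⟩, by simp [g'], fun f ε hf => ?_⟩
  have z : ℍ := UpperHalfPlane.I
  obtain ⟨z', hz'⟩ : ∃ z' : ℍ, (z' : ℂ) = -(starRingEnd ℂ) (z : ℂ) :=
    ⟨⟨-(starRingEnd ℂ) (z : ℂ), by simpa using z.im_pos⟩, rfl⟩
  obtain ⟨w', hw'⟩ : ∃ w' : ℍ, (w' : ℂ) = -(starRingEnd ℂ) ((g • z : ℍ) : ℂ) :=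
    ⟨⟨-(starRingEnd ℂ) ((g • z : ℍ) : ℂ), by simpa using (g • z).im_pos⟩, rfl⟩
  refine per_of f ⟨g', hg'⟩ z' w' ?_ _ ?_
  · change ((g' • z' : ℍ) : ℂ) = _
    rw [act, hw', hz', act]
    have e00 : g' 0 0 = g 0 0 := by simp [g']
    have e01 : g' 0 1 = -g 0 1 := by simp [g']
    have e10 : g' 1 0 = -g 1 0 := by simp [g']
    have e11 : g' 1 1 = g 1 1 := by simp [g']
    rw [e00, e01, e10, e11, map_div₀]
    simp only [map_add, map_mul, map_intCast, Int.cast_neg]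
    have h2 := den_ne g z
    have h3 : (starRingEnd ℂ) (((g 1 0 : ℤ) : ℂ) * z + ((g 1 1 : ℤ) : ℂ)) ≠ 0 := by
      rwa [ne_eq, map_eq_zero]
    simp only [map_add, map_mul, map_intCast] at h3
    have h4 : -((g 1 0 : ℤ) : ℂ) * -(starRingEnd ℂ) (z : ℂ) + ((g 1 1 : ℤ) : ℂ) =
        ((g 1 0 : ℤ) : ℂ) * (starRingEnd ℂ) (z : ℂ) + ((g 1 1 : ℤ) : ℂ) := by ring
    rw [h4, ← neg_div]
    congr 1
    ring
  · rw [hw', hz', ← TwmP.prim_conj hf z.im_pos, ← TwmP.prim_conj hf (g • z).im_pos, ← map_add]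
    congr 1
    exact per_spec f ⟨g, hg⟩ z

/-- the involution -/
theorem fricke_per (hN : 1 < N) (γ : Gamma0 N) : ∃ γ' : Gamma0 N,
    ∀ (f : Cf2 N) (ε : ℝ), W388.IsNewf N 2 f ε → per f γ' = -(ε : ℂ) * per f γ := by
  obtain ⟨g, hg⟩ := γ
  have hdet := det_eq g
  have hNz : (N : ℂ) ≠ 0 := Nat.cast_ne_zero.2 (NeZero.ne N)
  obtain ⟨c, hc⟩ : ∃ c : ℤ, g 1 0 = N * c := by
    rw [Gamma0_mem, ZMod.intCast_zmod_eq_zero_iff_dvd] at hg
    exact hg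
  let g' : SL(2, ℤ) := ⟨!![g 1 1, -c; -(N : ℤ) * g 0 1, g 0 0], by
    rw [Matrix.det_fin_two_of]
    rw [hc] at hdet
    linarith⟩
  have hg' : g' ∈ Gamma0 N := by
    rw [Gamma0_mem]
    simp [g']
  refine ⟨⟨g', hg'⟩, fun f ε hf => ?_⟩
  obtain ⟨c0, hc0⟩ := prim_fricke f ε (newf_fr hf)
  have z : ℍ := UpperHalfPlane.I
  have him : ∀ z : ℍ, 0 < (-1 / ((N : ℂ) * (z : ℂ))).im := by
    intro z
    have h1 : (-1 / ((N : ℂ) * (z : ℂ))) = ((((N : ℝ))⁻¹ : ℝ) : ℂ) * (-(z : ℂ)⁻¹) := by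
      push_cast
      field_simp
    rw [h1, Complex.im_ofReal_mul]
    have h2 : (0 : ℝ) < (N : ℝ)⁻¹ := by
      have : (0 : ℝ) < N := Nat.cast_pos.2 (Nat.pos_of_ne_zero (NeZero.ne N))
      positivity
    have h3 : 0 < (-(z : ℂ)⁻¹).im := by
      rw [Complex.neg_im, Complex.inv_im]
      have h4 : 0 < Complex.normSq (z : ℂ) := Complex.normSq_pos.2 z.ne_zero
      have h5 := z.im_pos
      have h6 : -(-(z : ℂ).im / Complex.normSq (z : ℂ)) = (z : ℂ).im / Complex.normSq (z : ℂ) := by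
        ring
      rw [h6]
      positivity
    positivity
  obtain ⟨z', hz'⟩ : ∃ z' : ℍ, (z' : ℂ) = -1 / ((N : ℂ) * (z : ℂ)) := ⟨⟨_, him z⟩, rfl⟩
  obtain ⟨w', hw'⟩ : ∃ w' : ℍ, (w' : ℂ) = -1 / ((N : ℂ) * ((g • z : ℍ) : ℂ)) :=
    ⟨⟨_, him (g • z)⟩, rfl⟩
  refine per_of f ⟨g', hg'⟩ z' w' ?_ _ ?_
  · change ((g' • z' : ℍ) : ℂ) = _
    have hden' := den_ne g' z'
    have e00 : g' 0 0 = g 1 1 := by simp [g']
    have e01 : g' 0 1 = -c := by simp [g']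
    have e10 : g' 1 0 = -(N : ℤ) * g 0 1 := by simp [g']
    have e11 : g' 1 1 = g 0 0 := by simp [g']
    rw [act, hw']
    rw [e10, e11] at hden' ⊢
    rw [e00, e01]
    have hgz : ((g • z : ℍ) : ℂ) ≠ 0 := (g • z).ne_zero
    have hzz : (z : ℂ) ≠ 0 := z.ne_zero
    have hd := den_ne g z
    rw [div_eq_div_iff hden' (mul_ne_zero hNz hgz), hz', act]
    rw [hc] at hd ⊢
    push_cast at hd ⊢
    generalize ((g 0 0 : ℤ) : ℂ) = a at *
    generalize ((g 0 1 : ℤ) : ℂ) = b at *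
    obtain ⟨D, hD⟩ : ∃ D : ℂ, (N : ℂ) * (c : ℂ) * (z : ℂ) + ((g 1 1 : ℤ) : ℂ) = D := ⟨_, rfl⟩
    have hd2 : ((g 1 1 : ℤ) : ℂ) = D - (N : ℂ) * (c : ℂ) * (z : ℂ) := by
      rw [← hD]
      ring
    rw [hD] at hd ⊢
    rw [hd2]
    field_simp
    ring
  · rw [hw', hz', hc0 _ (g • z).im_pos, hc0 _ z.im_pos]
    have h1 : prim f ((g • z : ℍ) : ℂ) = prim f (z : ℂ) + per f ⟨g, hg⟩ := per_spec f ⟨g, hg⟩ z
    rw [h1]
    ring

/-- the same period with a positive lower right entry -/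
lemma exists_pos (hN : 1 < N) (γ : Gamma0 N) : ∃ γ' : Gamma0 N,
    0 < ((γ' : SL(2, ℤ)) 1 1 : ℤ) ∧ ∀ f : Cf2 N, per f γ' = per f γ := by
  have hdet := det_eq (γ : SL(2, ℤ))
  have hne : ((γ : SL(2, ℤ)) 1 1 : ℤ) ≠ 0 := by
    intro h0
    have h1 := γ.2
    rw [Gamma0_mem, ZMod.intCast_zmod_eq_zero_iff_dvd] at h1
    rw [h0, mul_zero, zero_sub] at hdet
    have h2 : (N : ℤ) ∣ 1 := by
      rw [← hdet]
      exact (dvd_mul_of_dvd_right h1 _).neg_right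
    have h3 := Int.le_of_dvd one_pos h2
    have h4 : (1 : ℤ) < N := by exact_mod_cast hN
    omega
  rcases lt_or_gt_of_ne hne with h | h
  · have hm : (-1 : SL(2, ℤ)) ∈ Gamma0 N := by
      rw [Gamma0_mem]
      simp
    refine ⟨⟨-1, hm⟩ * γ, ?_, fun f => ?_⟩
    · have : (((⟨-1, hm⟩ * γ : Gamma0 N) : SL(2, ℤ)) 1 1 : ℤ) = -((γ : SL(2, ℤ)) 1 1 : ℤ) := by
        rw [Subgroup.coe_mul]
        simp
      rw [this]
      omega
    · rw [per_mul]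
      have h1 : per f (⟨-1, hm⟩ : Gamma0 N) = 0 := by
        refine per_of f _ UpperHalfPlane.I UpperHalfPlane.I ?_ 0 (by rw [add_zero])
        rw [act]
        simp
      rw [h1, zero_add]
  · exact ⟨γ, h, fun f => rfl⟩

/-- **the periods are differences of boundary values** -/
theorem per_bv (γ : Gamma0 N) (hpos : 0 < ((γ : SL(2, ℤ)) 1 1 : ℤ)) :
    ((((γ : SL(2, ℤ)) 0 1 : ℤ) : ℚ) / (((γ : SL(2, ℤ)) 1 1 : ℤ) : ℚ)).den.Coprime N ∧
    ∀ (f : Cf2 N) (ε : ℂ), Fr f ε →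
      per f γ = bv f ((((γ : SL(2, ℤ)) 0 1 : ℤ) : ℚ) / (((γ : SL(2, ℤ)) 1 1 : ℤ) : ℚ)) - bv f 0 := by
  obtain ⟨g, hg⟩ := γ
  have hdet := det_eq g
  obtain ⟨v, hv⟩ : ∃ v : ℤ, g 1 0 = N * v := by
    rw [Gamma0_mem, ZMod.intCast_zmod_eq_zero_iff_dvd] at hg
    exact hg
  obtain ⟨q, hq⟩ : ∃ q : ℕ, g 1 1 = (q : ℤ) := ⟨(g 1 1).toNat, by
    rw [Int.toNat_of_nonneg]
    exact hpos.le⟩
  change 0 < (g 1 1 : ℤ) at hpos
  change ((((g 0 1 : ℤ) : ℚ) / ((g 1 1 : ℤ) : ℚ)).den.Coprime N ∧ ∀ (f : Cf2 N) (ε : ℂ), Fr f ε →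
      per f ⟨g, hg⟩ = bv f (((g 0 1 : ℤ) : ℚ) / ((g 1 1 : ℤ) : ℚ)) - bv f 0)
  rw [hv, hq] at hdet
  rw [hq] at hpos ⊢
  have hqpos : 0 < q := by exact_mod_cast hpos
  have hq0 : (0 : ℝ) < q := by exact_mod_cast hqpos
  have hqQ : (q : ℚ) ≠ 0 := by exact_mod_cast hqpos.ne'
  have hqC : (q : ℂ) ≠ 0 := by exact_mod_cast hqpos.ne'
  have hN0 : (0 : ℝ) < N := Nat.cast_pos.2 (Nat.pos_of_ne_zero (NeZero.ne N))
  have hNc : (N : ℂ) ≠ 0 := Nat.cast_ne_zero.2 (NeZero.ne N)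
  have hcop : q.Coprime N := by
    have h1 : IsCoprime (q : ℤ) (N : ℤ) := ⟨g 0 0, -(g 0 1 * v), by linarith⟩
    exact Nat.isCoprime_iff_coprime.1 h1
  have hr : (((g 0 1 : ℤ) : ℚ) / ((q : ℤ) : ℚ)).den.Coprime N := by
    rw [den_iff]
    refine ⟨q, hcop, g 0 1, ?_⟩
    rw [Int.cast_natCast]
    field_simp
  refine ⟨hr, fun f ε hfr => ?_⟩
  obtain ⟨c0, hc0⟩ := prim_fricke f ε hfr
  have key : ∀ T : ℝ, 0 < T → prim f (((g 0 1 : ℤ) : ℂ) / q + (1 / (N * q ^ 2 * T) : ℝ) * Complex.I) =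
      c0 + per f ⟨g, hg⟩ - ε * prim f ((v : ℂ) / q + (T : ℂ) * Complex.I) := by
    intro T hT
    have hTc : (T : ℂ) ≠ 0 := Complex.ofReal_ne_zero.2 hT.ne'
    set z' : ℂ := (v : ℂ) / q + (T : ℂ) * Complex.I with hz'
    have hz'im : z'.im = T := by
      rw [hz', show ((v : ℂ) / q) = (((v : ℝ) / (q : ℝ) : ℝ) : ℂ) by push_cast; rfl]
      simp
    have hz'0 : z' ≠ 0 := by
      intro h
      rw [h] at hz'im
      simp at hz'im
      linarith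
    have hwim : 0 < (-1 / ((N : ℂ) * z')).im := by
      have h1 : (-1 / ((N : ℂ) * z')) = ((((N : ℝ))⁻¹ : ℝ) : ℂ) * (-z'⁻¹) := by
        push_cast
        field_simp
      rw [h1, Complex.im_ofReal_mul]
      have h3 : 0 < (-z'⁻¹).im := by
        rw [Complex.neg_im, Complex.inv_im, hz'im]
        have h4 : 0 < Complex.normSq z' := Complex.normSq_pos.2 hz'0
        have h6 : -(-T / Complex.normSq z') = T / Complex.normSq z' := by ring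
        rw [h6]
        positivity
      positivity
    obtain ⟨w, hw⟩ : ∃ w : ℍ, (w : ℂ) = -1 / ((N : ℂ) * z') := ⟨⟨_, hwim⟩, rfl⟩
    have hgw : ((g • w : ℍ) : ℂ) =
        ((g 0 1 : ℤ) : ℂ) / q + (1 / (N * q ^ 2 * T) : ℝ) * Complex.I := by
      have hd := den_ne g w
      rw [act]
      rw [hv, hq] at hd ⊢
      rw [div_eq_iff hd, hw, hz']
      have hz'' : (v : ℂ) / q + (T : ℂ) * Complex.I ≠ 0 := hz'0
      have hdc : ((g 0 0 : ℤ) : ℂ) * (q : ℂ) - ((g 0 1 : ℤ) : ℂ) * ((N : ℂ) * (v : ℂ)) = 1 := by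
        exact_mod_cast hdet
      generalize ((g 0 0 : ℤ) : ℂ) = a at *
      generalize ((g 0 1 : ℤ) : ℂ) = b at *
      have e1 : (v : ℂ) = q * (z' - T * Complex.I) := by
        rw [hz']
        field_simp
        ring
      rw [← hz']
      push_cast
      rw [e1] at hdc ⊢
      have ha : a = (1 + b * ((N : ℂ) * (q * (z' - T * Complex.I)))) / q := by
        rw [eq_div_iff hqC]
        linear_combination hdc
      rw [ha]
      field_simp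
      ring_nf
      simp only [Complex.I_sq]
      ring
    have h1 : prim f ((g • w : ℍ) : ℂ) = prim f (w : ℂ) + per f ⟨g, hg⟩ := per_spec f ⟨g, hg⟩ w
    rw [hgw, hw, hc0 z' (by rw [hz'im]; exact hT)] at h1
    rw [h1]
    ring
  have hT : Tendsto (fun y : ℝ => (N * (q : ℝ) ^ 2)⁻¹ * y⁻¹) (𝓝[>] 0) atTop :=
    (tendsto_inv_nhdsGT_zero).const_mul_atTop (by positivity)
  have h1 := (prim_line f ((v : ℝ) / q)).comp hT
  have h2 : Tendsto (fun y : ℝ => c0 + per f ⟨g, hg⟩ - ε * prim f ((((v : ℝ) / q : ℝ) : ℂ) +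
      (((N * (q : ℝ) ^ 2)⁻¹ * y⁻¹ : ℝ) : ℂ) * Complex.I)) (𝓝[>] 0)
      (𝓝 (c0 + per f ⟨g, hg⟩ - ε * 0)) :=
    (h1.const_mul _).const_sub _
  rw [mul_zero, sub_zero] at h2
  have h4 : bv f (((g 0 1 : ℤ) : ℚ) / ((q : ℤ) : ℚ)) = c0 + per f ⟨g, hg⟩ := by
    refine tendsto_nhds_unique (bv_tendsto f hfr _ hr) (h2.congr' ?_)
    filter_upwards [self_mem_nhdsWithin] with y (hy : 0 < y)
    have h3 := key ((N * (q : ℝ) ^ 2)⁻¹ * y⁻¹) (by positivity)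
    have e1 : (1 / (N * (q : ℝ) ^ 2 * ((N * (q : ℝ) ^ 2)⁻¹ * y⁻¹))) = y := by
      field_simp
    rw [e1] at h3
    push_cast
    push_cast at h3
    rw [h3]
  rw [h4, prim_zero_tendsto f hc0 hfr]
  ring

/-- **The Hecke translates of a vector of periods.** -/
theorem hecke_mem (hN : 1 < N) {B : Finset (Cf2 N)} (hB : ∀ f ∈ B, ∃ ε : ℝ, W388.IsNewf N 2 f ε)
    (γ : Gamma0 N) (n : ℕ) (hn : n.Coprime N) : (fun f : B => co f.1 n * per f.1 γ) ∈ LL B := by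
  obtain ⟨γ', hpos, hper⟩ := exists_pos hN γ
  obtain ⟨hr, h⟩ := per_bv γ' hpos
  have h1 := PPm.all hB n hn 1 (PP_one hB) _ 0 hr (by simp)
  refine (congrArg (· ∈ LL B) ?_).mp h1
  funext f
  obtain ⟨ε, hε⟩ := hB f.1 f.2
  rw [← hper f.1, h f.1 ε (newf_fr hε)]
  change co f.1 n * (1 : ℂ) * _ = _
  rw [mul_one]

end Pool.Agent.H52.SH
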